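import Pool.Agent.W174.BM.Loc

set_option autoImplicit false

open Topology Filter Metric Set

namespace Pool.Agent.W174.BM

open Pool.Agent.W820.BM

theorem exists_dir {n : ℕ} (L : (Fin n → ℂ) →L[ℂ] (Fin n → ℂ)) {y : Fin n → ℂ} (hy : y ≠ 0) :
    ∃ (X : Fin n → ℂ) (μ : ℂ), X ≠ 0 ∧ ‖μ‖ ≤ 1 ∧ L X = μ • y := by
  by_cases hinj : Function.Injective L
  · have hsurj : Function.Surjective L := (LinearMap.injective_iff_surjective
      (f := (L : (Fin n → ℂ) →ₗ[ℂ] (Fin n → ℂ)))).1 hinj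
    obtain ⟨X, hX⟩ := hsurj y
    refine ⟨X, 1, ?_, by simp, by rw [hX, one_smul]⟩
    rintro rfl
    rw [map_zero] at hX
    exact hy hX.symm
  · rw [injective_iff_map_eq_zero] at hinj
    push Not at hinj
    obtain ⟨X, hX1, hX2⟩ := hinj
    exact ⟨X, 0, hX2, by simp, by rw [hX1, zero_smul]⟩

theorem step {n : ℕ} {Ω : Set (Fin n → ℂ)} {Φ : (Fin n → ℂ) → (Fin n → ℂ)} {h : (Fin n → ℂ) → ℂ}
    (hΩ : IsOpen Ω) (hΦ : Differentiable ℂ Φ) (hh : DifferentiableOn ℂ h Ω) {κ τ : ℝ}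
    (hκ : 0 ≤ κ) (hτ : 0 < τ) {v1 : Fin n → ℂ} (hv1 : v1 ∈ Ω) (hS : 0 < nsq (Φ v1))
    {V : Set (Fin n → ℂ)} (hV : V ∈ 𝓝 v1) :
    ∃ v ∈ V, (h v1).re + τ * nsq v1 - κ / 2 * Real.log (nsq (Φ v1)) <
      (h v).re + τ * nsq v - κ / 2 * Real.log (nsq (Φ v)) := by
  have hy : Φ v1 ≠ 0 := by
    intro h0
    rw [h0] at hS
    simp [nsq] at hS
  obtain ⟨X, μ, hX, hμ, hL⟩ := exists_dir (fderiv ℂ Φ v1) hy
  obtain ⟨g, hg⟩ : ∃ g : ℂ → (Fin n → ℂ), ∀ t, g t = v1 + t • X := ⟨_, fun _ => rfl⟩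
  have eg : g = fun t => v1 + t • X := funext hg
  have hg0 : g 0 = v1 := by rw [hg]; simp
  have hgd : ∀ t, HasDerivAt g X t := by
    intro t
    rw [eg]
    have := ((hasDerivAt_id t).smul_const X).const_add v1
    simpa using this
  have hgc : Continuous g := by rw [eg]; fun_prop
  have hgdiff : Differentiable ℂ g := fun t => (hgd t).differentiableAt
  -- a small disc
  have hnb : (Ω ∩ V) ∩ {v | 0 < nsq (Φ v)} ∈ 𝓝 (g 0) := by
    rw [hg0]
    refine inter_mem (inter_mem (hΩ.mem_nhds hv1) hV) ?_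
    exact (isOpen_lt continuous_const (nsq_cont.comp hΦ.continuous)).mem_nhds hS
  obtain ⟨ε1, hε1, hball⟩ := Metric.mem_nhds_iff.1 (hgc.continuousAt.preimage_mem_nhds hnb)
  obtain ⟨ε0, hε0⟩ : ∃ ε0 : ℝ, ε0 = min ε1 1 := ⟨_, rfl⟩
  have hε0p : 0 < ε0 := by rw [hε0]; exact lt_min hε1 one_pos
  have hin : ∀ t ∈ ball (0:ℂ) ε0, g t ∈ (Ω ∩ V) ∩ {v | 0 < nsq (Φ v)} := by
    intro t ht
    apply hball
    rw [mem_ball] at ht ⊢
    exact ht.trans_le (by rw [hε0]; exact min_le_left _ _)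
  have h1 : ∀ t ∈ ball (0:ℂ) ε0, ‖μ * t‖ < 1 := by
    intro t ht
    rw [mem_ball_zero_iff] at ht
    have h2 : ‖t‖ < 1 := ht.trans_le (by rw [hε0]; exact min_le_right _ _)
    rw [norm_mul]
    have h3 := norm_nonneg t
    nlinarith
  have hslit : ∀ t ∈ ball (0:ℂ) ε0, 1 + μ * t ∈ Complex.slitPlane := by
    intro t ht
    rw [Complex.mem_slitPlane_iff]
    left
    have := (Complex.abs_re_le_norm (μ * t)).trans_lt (h1 t ht)
    rw [abs_lt] at this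
    rw [Complex.add_re, Complex.one_re]
    linarith [this.1]
  have hne : ∀ t ∈ ball (0:ℂ) ε0, 1 + μ * t ≠ 0 := fun t ht =>
    Complex.slitPlane_ne_zero (hslit t ht)
  obtain ⟨S0, hS0⟩ : ∃ S0 : ℝ, S0 = nsq (Φ v1) := ⟨_, rfl⟩
  have hS0p : 0 < S0 := by rw [hS0]; exact hS
  have hΦg : Differentiable ℂ (fun t => Φ (g t)) := hΦ.comp hgdiff
  have hΦgi : ∀ i, Differentiable ℂ (fun t => Φ (g t) i) := fun i => differentiable_pi.1 hΦg i
  have key := loc (F0 := fun t => h (g t) + ((τ * nsq v1 : ℝ) : ℂ) +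
      2 * τ * (t * ∑ i, X i * (starRingEnd ℂ) (v1 i)) - κ * Complex.log (1 + μ * t) -
      ((κ / 2 * (Real.log S0 - 1) : ℝ) : ℂ))
    (w0 := fun t => (h (g t)).re + τ * nsq (g t) - κ / 2 * Real.log (nsq (Φ (g t))))
    (ψ := fun (i : Fin n) t => Φ (g t) i / (1 + μ * t)) (c := fun _ => κ / (2 * S0))
    (τ := τ * nsq X) (ε0 := ε0) hε0p ?_ ?_ ?_ ?_ (ψ' := fun _ => 0) ?_ ?_
  · obtain ⟨t, ht, hlt⟩ := key
    refine ⟨g t, (hin t ht).1.2, ?_⟩
    simp only [hg0] at hlt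
    exact hlt
  · have e1 : DifferentiableOn ℂ (fun t => h (g t)) (ball 0 ε0) :=
      hh.comp hgdiff.differentiableOn fun t ht => (hin t ht).1.1
    have e2 : DifferentiableOn ℂ (fun t => Complex.log (1 + μ * t)) (ball 0 ε0) := by
      apply DifferentiableOn.clog _ hslit
      fun_prop
    have e3 : DifferentiableOn ℂ (fun t : ℂ => 2 * (τ:ℂ) *
        (t * ∑ i, X i * (starRingEnd ℂ) (v1 i))) (ball 0 ε0) := by fun_prop
    exact (((e1.add_const _).add e3).sub (e2.const_mul _)).sub_const _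
  · intro i
    exact (hΦgi i).differentiableOn.div (by fun_prop) hne
  · simp only [hg0, mul_zero, zero_mul, add_zero, Complex.log_one, div_one, sub_zero]
    rw [Complex.sub_re, Complex.add_re, Complex.ofReal_re, Complex.ofReal_re, ← Finset.mul_sum]
    have e1 : ∑ i, ‖Φ v1 i‖ ^ 2 = S0 := by rw [hS0]; rfl
    rw [e1, ← hS0]
    field_simp
    ring
  · intro t ht
    have hp : 0 < nsq (Φ (g t)) := (hin t ht).2
    have e0 : (h (g t) + ((τ * nsq v1 : ℝ) : ℂ) +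
      2 * τ * (t * ∑ i, X i * (starRingEnd ℂ) (v1 i)) - κ * Complex.log (1 + μ * t) -
      ((κ / 2 * (Real.log S0 - 1) : ℝ) : ℂ)).re = (h (g t)).re + τ * nsq v1 +
      2 * τ * (t * ∑ i, X i * (starRingEnd ℂ) (v1 i)).re - κ * Real.log ‖1 + μ * t‖ -
      κ / 2 * (Real.log S0 - 1) := by
      rw [Complex.sub_re, Complex.sub_re, Complex.add_re, Complex.add_re, Complex.ofReal_re,
        Complex.ofReal_re, Complex.re_ofReal_mul, Complex.log_re]
      have : (2 * (τ:ℂ) * (t * ∑ i, X i * (starRingEnd ℂ) (v1 i))) =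
        ((2 * τ : ℝ) : ℂ) * (t * ∑ i, X i * (starRingEnd ℂ) (v1 i)) := by push_cast; ring
      rw [this, Complex.re_ofReal_mul]
    have e1 : nsq (g t) = nsq v1 + 2 * (t * ∑ i, X i * (starRingEnd ℂ) (v1 i)).re +
        ‖t‖ ^ 2 * nsq X := by rw [hg, nsq_add]
    have hn := norm_pos_iff.2 (hne t ht)
    have e2 : ∑ i, ‖Φ (g t) i / (1 + μ * t)‖ ^ 2 = nsq (Φ (g t)) / ‖1 + μ * t‖ ^ 2 := by
      unfold nsq
      rw [Finset.sum_div]
      refine Finset.sum_congr rfl fun i _ => ?_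
      rw [norm_div, div_pow]
    obtain ⟨x, hx⟩ : ∃ x : ℝ, x = nsq (Φ (g t)) / ‖1 + μ * t‖ ^ 2 := ⟨_, rfl⟩
    have hxp : 0 < x := by rw [hx]; positivity
    have e3 : nsq (Φ (g t)) = ‖1 + μ * t‖ ^ 2 * x := by
      rw [hx]; field_simp
    have e4 : Real.log (nsq (Φ (g t))) ≤ 2 * Real.log ‖1 + μ * t‖ + Real.log S0 + x / S0 - 1 := by
      rw [e3, Real.log_mul (by positivity) hxp.ne', Real.log_pow]
      have h3 := Real.log_le_sub_one_of_pos (show 0 < x / S0 by positivity)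
      rw [Real.log_div hxp.ne' hS0p.ne'] at h3
      push_cast
      linarith
    have e5 : κ / 2 * Real.log (nsq (Φ (g t))) ≤
        κ / 2 * (2 * Real.log ‖1 + μ * t‖ + Real.log S0 + x / S0 - 1) :=
      mul_le_mul_of_nonneg_left e4 (by positivity)
    rw [e0, e1, ← Finset.mul_sum, e2, ← hx]
    have e6 : κ / (2 * S0) * x = κ / 2 * (x / S0) := by field_simp
    rw [e6]
    nlinarith
  · intro i
    have d1 : HasDerivAt (fun t => Φ (g t)) (fderiv ℂ Φ v1 X) 0 := by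
      have h2 : HasFDerivAt Φ (fderiv ℂ Φ v1) (g 0) := by
        rw [hg0]; exact (hΦ v1).hasFDerivAt
      exact h2.comp_hasDerivAt 0 (hgd 0)
    have d2 : HasDerivAt (fun t => Φ (g t) i) ((fderiv ℂ Φ v1 X) i) 0 := hasDerivAt_pi.1 d1 i
    have d3 : HasDerivAt (fun t : ℂ => 1 + μ * t) (μ * 1) 0 :=
      ((hasDerivAt_id (0:ℂ)).const_mul μ).const_add 1
    have d4 := d2.div d3 (by simp)
    refine d4.congr_deriv ?_
    rw [hL, hg0]
    simp
    ring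
  · simp only [norm_zero]
    have := nsq_pos hX
    simp only [ne_eq, OfNat.ofNat_ne_zero, not_false_eq_true, zero_pow, mul_zero,
      Finset.sum_const_zero]
    positivity

theorem tc : S_TC := by
  intro n Ω Φ h R R₀ r M κ hΩ hΦ hh hr hrR hRR hM hMκ hK hKΩ hbd v₀ hv₀ hre
  have hR₀ : 0 < R₀ := hr.trans_le hrR
  have hR : 0 < R := hR₀.trans hRR
  have hlog : 0 < Real.log (R / R₀) := Real.log_pos (by rw [lt_div_iff₀ hR₀]; linarith)
  have hκ : 0 < κ := by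
    by_contra hcon
    have : κ * Real.log (R / R₀) ≤ 0 := mul_nonpos_of_nonpos_of_nonneg (not_lt.1 hcon) hlog.le
    linarith
  have hlog2 : 0 ≤ Real.log (R₀ / r) := Real.log_nonneg (by rw [le_div_iff₀ hr]; linarith)
  by_cases hcase : nsq (Φ v₀) ≤ r ^ 2
  · refine ⟨v₀, hcase, ?_⟩
    rw [hre]
    have := mul_nonneg hκ.le hlog2
    linarith
  rw [not_le] at hcase
  have hrR2 : r < R₀ := by
    have : r ^ 2 < R₀ ^ 2 := hcase.trans_le hv₀
    exact lt_of_pow_lt_pow_left₀ 2 hR₀.le this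
  have hlog3 : 0 < Real.log (R₀ / r) := Real.log_pos (by rw [lt_div_iff₀ hr]; linarith)
  -- bound of nsq
  obtain ⟨Bd, hBd0, hBd⟩ : ∃ Bd : ℝ, 0 < Bd ∧ ∀ v, nsq (Φ v) ≤ R ^ 2 → nsq v ≤ Bd := by
    obtain ⟨B, hB⟩ := hK.bddAbove_image (f := nsq) nsq_cont.continuousOn
    refine ⟨max B 1, by positivity, fun v hv => ?_⟩
    exact (hB ⟨v, hv, rfl⟩).trans (le_max_left _ _)
  -- parameters
  obtain ⟨κ', hκ1, hκ2⟩ : ∃ κ' : ℝ, M / Real.log (R / R₀) < κ' ∧ κ' < κ := by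
    apply exists_between
    rw [div_lt_iff₀ hlog]
    exact hMκ
  have hκ1' : M < κ' * Real.log (R / R₀) := by rwa [div_lt_iff₀ hlog] at hκ1
  have hκ'0 : 0 < κ' := lt_of_le_of_lt (div_nonneg hM hlog.le) hκ1
  obtain ⟨τ, hτ⟩ : ∃ τ : ℝ, τ = min ((κ' * Real.log (R / R₀) - M) / (2 * Bd))
      ((κ - κ') * Real.log (R₀ / r) / Bd) := ⟨_, rfl⟩
  have hκd : 0 < κ - κ' := by linarith
  have hMd : 0 < κ' * Real.log (R / R₀) - M := by linarith
  have hτ0 : 0 < τ := by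
    rw [hτ]
    exact lt_min (by positivity) (by positivity)
  have hτ1 : M + τ * Bd < κ' * Real.log (R / R₀) := by
    have h1 : τ ≤ (κ' * Real.log (R / R₀) - M) / (2 * Bd) := by rw [hτ]; exact min_le_left _ _
    rw [le_div_iff₀ (by positivity)] at h1
    linarith
  have hτ2 : τ * Bd ≤ (κ - κ') * Real.log (R₀ / r) := by
    have h1 : τ ≤ (κ - κ') * Real.log (R₀ / r) / Bd := by rw [hτ]; exact min_le_right _ _
    rwa [le_div_iff₀ hBd0] at h1
  have cΦ : Continuous (fun v => nsq (Φ v)) := nsq_cont.comp hΦ.continuous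
  obtain ⟨w, hw⟩ : ∃ w : (Fin n → ℂ) → ℝ, ∀ v, w v =
      (h v).re + τ * nsq v - κ' / 2 * Real.log (nsq (Φ v)) := ⟨_, fun _ => rfl⟩
  have hAc : IsCompact {v | r ^ 2 ≤ nsq (Φ v) ∧ nsq (Φ v) ≤ R ^ 2} := by
    have : {v | r ^ 2 ≤ nsq (Φ v) ∧ nsq (Φ v) ≤ R ^ 2} =
        {v | r ^ 2 ≤ nsq (Φ v)} ∩ {v | nsq (Φ v) ≤ R ^ 2} := rfl
    rw [this]
    exact hK.inter_left (isClosed_le continuous_const cΦ)
  have hwc : ContinuousOn w {v | r ^ 2 ≤ nsq (Φ v) ∧ nsq (Φ v) ≤ R ^ 2} := by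
    rw [show w = fun v => (h v).re + τ * nsq v - κ' / 2 * Real.log (nsq (Φ v)) from funext hw]
    have c1 : ContinuousOn (fun v => (h v).re) {v | r ^ 2 ≤ nsq (Φ v) ∧ nsq (Φ v) ≤ R ^ 2} :=
      Complex.continuous_re.comp_continuousOn (hh.continuousOn.mono fun v hv => hKΩ hv.2)
    have c2 : ContinuousOn (fun v => Real.log (nsq (Φ v)))
        {v | r ^ 2 ≤ nsq (Φ v) ∧ nsq (Φ v) ≤ R ^ 2} := by
      apply ContinuousOn.log cΦ.continuousOn
      intro v hv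
      have : 0 < r ^ 2 := by positivity
      exact (this.trans_le hv.1).ne'
    exact (c1.add (continuousOn_const.mul nsq_cont.continuousOn)).sub
      (continuousOn_const.mul c2)
  have hv₀A : v₀ ∈ {v | r ^ 2 ≤ nsq (Φ v) ∧ nsq (Φ v) ≤ R ^ 2} :=
    ⟨hcase.le, hv₀.trans (pow_le_pow_left₀ hR₀.le hRR.le 2)⟩
  obtain ⟨v1, hv1, hmax⟩ := hAc.exists_isMaxOn ⟨v₀, hv₀A⟩ hwc
  have hmax0 : w v₀ ≤ w v1 := hmax hv₀A
  have hr2 : 0 < r ^ 2 := by positivity
  have hlR : Real.log (R / R₀) = Real.log R - Real.log R₀ := Real.log_div hR.ne' hR₀.ne'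
  have hlr : Real.log (R₀ / r) = Real.log R₀ - Real.log r := Real.log_div hR₀.ne' hr.ne'
  have hw0 : -(κ' * Real.log R₀) ≤ w v₀ := by
    rw [hw, hre]
    have h1 : Real.log (nsq (Φ v₀)) ≤ 2 * Real.log R₀ := by
      have := Real.log_le_log (hr2.trans hcase) hv₀
      rwa [Real.log_pow] at this
    have h2 := mul_le_mul_of_nonneg_left h1 (show 0 ≤ κ' / 2 by positivity)
    have h3 := mul_nonneg hτ0.le (nsq_nonneg v₀)
    linarith
  have hw1 : w v1 ≤ (h v1).re + τ * Bd - κ' / 2 * Real.log (nsq (Φ v1)) := by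
    rw [hw]
    have := mul_le_mul_of_nonneg_left (hBd v1 hv1.2) hτ0.le
    linarith
  rcases lt_or_eq_of_le hv1.2 with hlt | heq
  · rcases lt_or_eq_of_le hv1.1 with hlt2 | heq2
    · -- interior point: impossible
      exfalso
      have hV : {v | r ^ 2 ≤ nsq (Φ v) ∧ nsq (Φ v) ≤ R ^ 2} ∈ 𝓝 v1 := by
        have h1 : {v | r ^ 2 < nsq (Φ v)} ∩ {v | nsq (Φ v) < R ^ 2} ∈ 𝓝 v1 :=
          inter_mem ((isOpen_lt continuous_const cΦ).mem_nhds hlt2)
            ((isOpen_lt cΦ continuous_const).mem_nhds hlt)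
        filter_upwards [h1] with v hv
        exact ⟨le_of_lt hv.1, le_of_lt hv.2⟩
      obtain ⟨v, hvV, hvlt⟩ := step hΩ hΦ hh hκ'0.le hτ0 (hKΩ hv1.2) (hr2.trans hlt2) hV
      have h2 : w v ≤ w v1 := hmax hvV
      rw [hw, hw] at h2
      linarith
    · refine ⟨v1, heq2.symm.le, ?_⟩
      rw [← heq2, Real.log_pow] at hw1
      push_cast at hw1
      rw [hlr] at hτ2 ⊢
      nlinarith
  · exfalso
    rw [heq, Real.log_pow] at hw1
    push_cast at hw1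
    have := hbd v1 hv1.2
    rw [hlR] at hτ1
    nlinarith

end Pool.Agent.W174.BM
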