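import Pool.Agent.W820.BM.Stm0

set_option autoImplicit false

open Topology Filter Metric Set

namespace Pool.Agent.W174.BM

open Pool.Agent.W820.BM

theorem norm_sq_split (a b : ℂ) : ‖b‖ ^ 2 =
    ‖a‖ ^ 2 + 2 * ((starRingEnd ℂ) a * (b - a)).re + ‖b - a‖ ^ 2 := by
  rw [← Complex.normSq_eq_norm_sq, ← Complex.normSq_eq_norm_sq, ← Complex.normSq_eq_norm_sq,
    Complex.normSq_apply, Complex.normSq_apply, Complex.normSq_apply]
  simp only [Complex.mul_re, Complex.conj_re, Complex.conj_im, Complex.sub_re, Complex.sub_im]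
  ring

/-- a local criterion: the function `w0` is not maximal at `0` -/
theorem loc {ι : Type} [Fintype ι] {F0 : ℂ → ℂ} {w0 : ℂ → ℝ} {ψ : ι → ℂ → ℂ} {c : ι → ℝ}
    {τ ε0 : ℝ} (hε0 : 0 < ε0) (hF : DifferentiableOn ℂ F0 (ball 0 ε0))
    (hψ : ∀ i, DifferentiableOn ℂ (ψ i) (ball 0 ε0))
    (h0 : w0 0 = (F0 0).re - ∑ i, c i * ‖ψ i 0‖ ^ 2)
    (hw : ∀ t ∈ ball (0:ℂ) ε0, (F0 t).re + τ * ‖t‖ ^ 2 - ∑ i, c i * ‖ψ i t‖ ^ 2 ≤ w0 t)
    {ψ' : ι → ℂ} (hψ' : ∀ i, HasDerivAt (ψ i) (ψ' i) 0)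
    (hd : ∑ i, c i * ‖ψ' i‖ ^ 2 < τ) : ∃ t ∈ ball (0:ℂ) ε0, w0 0 < w0 t := by
  obtain ⟨τ2, hτ1, hτ2⟩ := exists_between hd
  have hlim : Tendsto (fun t : ℂ => ∑ i, c i * ‖t⁻¹ • (ψ i (0 + t) - ψ i 0)‖ ^ 2) (𝓝[≠] 0)
      (𝓝 (∑ i, c i * ‖ψ' i‖ ^ 2)) := by
    apply tendsto_finsetSum
    intro i _
    exact (((hasDerivAt_iff_tendsto_slope_zero.1 (hψ' i)).norm).pow 2).const_mul (c i)
  have hev := hlim.eventually (gt_mem_nhds hτ1)
  rw [eventually_nhdsWithin_iff, Metric.eventually_nhds_iff] at hev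
  obtain ⟨ε1, hε1, hev⟩ := hev
  obtain ⟨ε, hε⟩ : ∃ ε : ℝ, ε = min ε0 ε1 / 2 := ⟨_, rfl⟩
  have hεp : 0 < ε := by rw [hε]; exact half_pos (lt_min hε0 hε1)
  have hεε0 : ε < ε0 := by
    rw [hε]
    have := min_le_left ε0 ε1
    linarith
  have hεε1 : ε < ε1 := by
    rw [hε]
    have := min_le_right ε0 ε1
    linarith
  have hsub : closedBall (0:ℂ) ε ⊆ ball 0 ε0 := closedBall_subset_ball hεε0
  obtain ⟨F, hFd⟩ : ∃ F : ℂ → ℂ, ∀ t, F t = F0 t - ∑ i, ((c i : ℝ) : ℂ) *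
      (((‖ψ i 0‖ ^ 2 : ℝ) : ℂ) + 2 * ((starRingEnd ℂ) (ψ i 0) * (ψ i t - ψ i 0))) :=
    ⟨_, fun _ => rfl⟩
  have hFre : ∀ t, (F t).re = (F0 t).re - ∑ i, c i *
      (‖ψ i 0‖ ^ 2 + 2 * ((starRingEnd ℂ) (ψ i 0) * (ψ i t - ψ i 0)).re) := by
    intro t
    rw [hFd, Complex.sub_re, Complex.re_sum]
    congr 1
    refine Finset.sum_congr rfl fun i _ => ?_
    rw [Complex.re_ofReal_mul, Complex.add_re, Complex.ofReal_re]
    congr 2
    rw [show (2:ℂ) = ((2:ℝ):ℂ) by norm_num, Complex.re_ofReal_mul]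
  have hkey : ∀ t, (F0 t).re - ∑ i, c i * ‖ψ i t‖ ^ 2 = (F t).re -
      ∑ i, c i * ‖ψ i t - ψ i 0‖ ^ 2 := by
    intro t
    rw [hFre, sub_sub, ← Finset.sum_add_distrib]
    congr 1
    refine Finset.sum_congr rfl fun i _ => ?_
    rw [norm_sq_split (ψ i 0) (ψ i t)]
    ring
  have hA : DifferentiableOn ℂ F (closedBall 0 ε) := by
    rw [show F = fun t => F0 t - ∑ i, ((c i : ℝ) : ℂ) *
      (((‖ψ i 0‖ ^ 2 : ℝ) : ℂ) + 2 * ((starRingEnd ℂ) (ψ i 0) * (ψ i t - ψ i 0))) from funext hFd]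
    apply (hF.mono hsub).sub
    apply DifferentiableOn.fun_sum
    intro i _
    have := (hψ i).mono hsub
    fun_prop
  have hB : w0 0 = (F 0).re := by
    rw [h0, hFre]
    simp
  have hC : ∀ t : ℂ, ‖t‖ = ε → (F t).re + (τ - τ2) * ε ^ 2 ≤ w0 t := by
    intro t ht
    have ht0 : t ≠ 0 := by
      intro h; rw [h, norm_zero] at ht; linarith
    have h1 := hev (y := t) (by rw [dist_zero_right, ht]; exact hεε1) ht0
    have h2 : ∑ i, c i * ‖ψ i t - ψ i 0‖ ^ 2 = ‖t‖ ^ 2 *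
        ∑ i, c i * ‖t⁻¹ • (ψ i (0 + t) - ψ i 0)‖ ^ 2 := by
      rw [Finset.mul_sum]
      refine Finset.sum_congr rfl fun i _ => ?_
      have h3 : ‖t‖ ≠ 0 := norm_ne_zero_iff.2 ht0
      rw [norm_smul, norm_inv, zero_add]
      field_simp
    have h4 := hw t (hsub (by rw [mem_closedBall_zero_iff, ht]))
    have h5 := hkey t
    have h6 : ‖t‖ ^ 2 * ∑ i, c i * ‖t⁻¹ • (ψ i (0 + t) - ψ i 0)‖ ^ 2 ≤ ‖t‖ ^ 2 * τ2 :=
      mul_le_mul_of_nonneg_left h1.le (by positivity)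
    rw [← h2, ht] at h6
    rw [ht] at h4
    nlinarith
  have hpos : 0 < (τ - τ2) * ε ^ 2 := by
    have : 0 < τ - τ2 := by linarith
    positivity
  obtain ⟨t, ht1, ht2⟩ := no_max hεp hpos hA hB hC
  exact ⟨t, hsub (by rw [mem_closedBall_zero_iff, ht1]), ht2⟩

theorem nsq_add {n : ℕ} (v X : Fin n → ℂ) (t : ℂ) : nsq (v + t • X) =
    nsq v + 2 * (t * ∑ i, X i * (starRingEnd ℂ) (v i)).re + ‖t‖ ^ 2 * nsq X := by
  unfold nsq
  rw [Finset.mul_sum, Finset.mul_sum, Complex.re_sum, Finset.mul_sum, ← Finset.sum_add_distrib,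
    ← Finset.sum_add_distrib]
  refine Finset.sum_congr rfl fun i _ => ?_
  rw [norm_sq_split (v i) ((v + t • X) i)]
  have e1 : (v + t • X) i - v i = t * X i := by
    simp
  rw [e1, norm_mul, mul_pow]
  congr 3
  ring_nf

theorem nsq_cont {n : ℕ} : Continuous (nsq : (Fin n → ℂ) → ℝ) := by
  unfold nsq
  fun_prop

theorem nsq_nonneg {n : ℕ} (v : Fin n → ℂ) : 0 ≤ nsq v :=
  Finset.sum_nonneg fun i _ => by positivity

theorem nsq_pos {n : ℕ} {v : Fin n → ℂ} (hv : v ≠ 0) : 0 < nsq v := by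
  obtain ⟨i, hi⟩ := Function.ne_iff.1 hv
  have h1 : 0 < ‖v i‖ ^ 2 := by
    have : 0 < ‖v i‖ := norm_pos_iff.2 hi
    positivity
  exact lt_of_lt_of_le h1 (Finset.single_le_sum (f := fun i => ‖v i‖ ^ 2)
    (fun i _ => by positivity) (Finset.mem_univ i))

end Pool.Agent.W174.BM
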